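import Pool.Agent.Helper38.SD.GoalsC
import Pool.Agent.Helper60.SD.D_FLD

/-!
# Project SD (MP_fc6b1e_nt): C_NCM (packet 13438)
-/

set_option autoImplicit false

namespace Pool.Agent.Helper39.SD

open NumberField Module
open Pool.Agent.Helper16.SD
open Pool.Agent.Helper38.SD
open Pool.Agent.Helper38.FD (Chr CutsOut)
open Pool.Agent.Helper38.TH (IsTower Hat)

theorem eq_zero_of_dvd {p : ℕ} [Fact p.Prime] (x : ℤ_[p]) (h : ∀ n : ℕ, (p : ℤ_[p]) ^ n ∣ x) :
    x = 0 := by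
  refine PadicInt.ext_of_toZModPow.1 fun n => ?_
  rw [map_zero, ← RingHom.mem_ker, PadicInt.ker_toZModPow, Ideal.mem_span_singleton]
  exact h n

section

variable {K : Type} [Field K]

/-- the image of a root of unity in the complex numbers -/
theorem conj_root (φ : AlgebraicClosure K →+* ℂ) (ζ : AlgebraicClosure K) (N : ℕ) (hN : N ≠ 0)
    (hζ : ζ ^ N = 1) : φ ζ⁻¹ = starRingEnd ℂ (φ ζ) := by
  rw [map_inv₀]
  refine Complex.inv_eq_conj (Complex.norm_eq_one_of_pow_eq_one (n := N) ?_ hN)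
  rw [← map_pow, hζ, map_one]

theorem fix_root (g : AlgebraicClosure K ≃ₐ[K] AlgebraicClosure K) (φ ψ : AlgebraicClosure K →+* ℂ)
    (h : ∀ x y, φ y = starRingEnd ℂ (φ x) → ψ y = starRingEnd ℂ (ψ (g x)))
    (ζ : AlgebraicClosure K) (N : ℕ) (hN : N ≠ 0) (hζ : ζ ^ N = 1) : g ζ = ζ := by
  have h1 := h ζ ζ⁻¹ (conj_root φ ζ N hN hζ)
  have h2 : (g ζ) ^ N = 1 := by rw [← map_pow, hζ, map_one]
  rw [← conj_root ψ (g ζ) N hN h2] at h1
  exact (inv_injective (ψ.injective h1)).symm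

variable [NumberField K] {p : ℕ} [Fact p.Prime]

/-- the characters `om`, `u` are trivial at `g` -/
theorem om_u_one (om u : (AlgebraicClosure K ≃ₐ[K] AlgebraicClosure K) →* ℤ_[p]ˣ)
    (η : ℕ → Chr K (AlgebraicClosure K) ℂ_[p]) (hc : Cyc η om u)
    (g : AlgebraicClosure K ≃ₐ[K] AlgebraicClosure K) (φ ψ : AlgebraicClosure K →+* ℂ)
    (h : ∀ x y, φ y = starRingEnd ℂ (φ x) → ψ y = starRingEnd ℂ (ψ (g x))) :
    om g = 1 ∧ u g = 1 := by
  have hp : p.Prime := Fact.out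
  have h1 : ((cyc p g : ℤ_[p]ˣ) : ℤ_[p]) - 1 = 0 := by
    refine eq_zero_of_dvd _ fun n => ?_
    rcases Nat.eq_zero_or_pos n with rfl | hn
    · rw [pow_zero]
      exact one_dvd _
    · exact (Pool.Agent.Helper60.SD.D_FLD.cyc_fix p n hn g).1 fun ξ hξ =>
        fix_root g φ ψ h ξ (p ^ n) (pow_ne_zero _ hp.ne_zero) hξ
  have h2 : om g * u g = 1 := by
    rw [← hc.mul g]
    exact Units.ext (sub_eq_zero.1 h1)
  have h3 : u g ^ (p - 1) = 1 := by
    have h4 : (om g * u g) ^ (p - 1) = 1 := by rw [h2, one_pow]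
    rw [mul_pow, hc.om_pow g, one_mul] at h4
    exact h4
  have h5 : u g = 1 := by
    apply Units.ext
    refine Pool.Agent.Helper60.SD.D_FLD.one_of p _ ?_ (hc.u_one g)
    rw [← Units.val_pow_eq_pow_val, h3, Units.val_one]
  refine ⟨?_, h5⟩
  rw [h5, mul_one] at h2
  exact h2

/-- a character `χ` whose kernel contains the `g` of the criterion which are in the kernel of `χ'` -/
theorem notCM_of (hC : C_IFF) {F₀ : Type} [Field F₀] [NumberField F₀] [IsTotallyReal F₀]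
    [IsTotallyComplex K] [Algebra F₀ K] (hd : finrank F₀ K = 2)
    (χ χ' : Chr K (AlgebraicClosure K) ℂ_[p]) (hχ : FinOrd χ) (hN : NotCM χ)
    (hk : ∀ (g : AlgebraicClosure K ≃ₐ[K] AlgebraicClosure K) (φ ψ : AlgebraicClosure K →+* ℂ),
      (∀ x y, φ y = starRingEnd ℂ (φ x) → ψ y = starRingEnd ℂ (ψ (g x))) → χ' g = 1 → χ g = 1) :
    NotCM χ' := by
  intro H' _ hcut hCM
  obtain ⟨H, hH, hcutH⟩ := hχ
  have : NumberField H := NumberField.of_module_finite K H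
  refine hN H hcutH ((hC p F₀ K hd χ H hcutH).2 fun g φ ψ h => ?_)
  exact hk g φ ψ h ((hC p F₀ K hd χ' H' hcut).1 hCM g φ ψ h)

end

theorem c_ncm (hC : C_IFF) : C_NCM := by
  intro p _ F₀ K _ _ _ _ _ _ _ hd η om u hc χ hχ hN
  refine ⟨fun θ hθ => ?_, fun ν hν => ?_⟩
  · refine notCM_of hC hd χ (χ * θ) hχ hN fun g φ ψ h h1 => ?_
    obtain ⟨h2, h3⟩ := om_u_one om u η hc g φ ψ h
    obtain ⟨n, a, rfl⟩ := hθ
    have h4 : η n g = 1 := by
      rw [hc.cut, h3, Units.val_one, sub_self]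
      exact dvd_zero _
    rw [MonoidHom.mul_apply, MonoidHom.pow_apply, h4, one_pow, mul_one] at h1
    exact h1
  · refine notCM_of hC hd χ ν hχ hN fun g φ ψ h h1 => ?_
    obtain ⟨h2, h3⟩ := om_u_one om u η hc g φ ψ h
    have h4 := hν g
    rw [h1, h2, Units.val_one, Units.val_one, map_one, mul_one] at h4
    exact Units.ext h4

end Pool.Agent.Helper39.SD
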