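import Pool.Agent.Helper16.SD.GoalsD
import Pool.Agent.Helper80.TH.UNR

/-!
# Project SD (MP_fc6b1e_nt): D_RAM (packet 13175)
-/

set_option autoImplicit false

namespace Pool.Agent.Helper39.SD.D_RAM

open NumberField Module IsDedekindDomain Polynomial
open Pool.Agent.Helper51.SigLeo Pool.Agent.Helper51.RP Pool.Agent.Helper51.REC
open Pool.Agent.Helper16.SD
open Pool.Agent.Helper17.TH (Uni)
open Pool.Agent.Helper80.TH (algF isGalois_algF uni_of restr_algF card_inertia exists_unif')
open Pool.Agent.Helper40.RS (bel)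
open scoped Pointwise

/-- congruent elements with the same `p ^ N`-th power are equal -/
theorem eq_of_cong {A : Type} [CommRing A] [IsDomain A] (W : Ideal A) (hW : W.IsPrime) (p N : ℕ)
    (hp : (p : A) ∉ W) (x y z : A) (hyz : y * z = 1) (hpow : x ^ p ^ N = y ^ p ^ N)
    (hxy : x - y ∈ W) : x = y := by
  by_contra hne
  have h1 : (∑ i ∈ Finset.range (p ^ N), x ^ i * y ^ (p ^ N - 1 - i)) * (x - y) = 0 := by
    rw [geom_sum₂_mul, hpow, sub_self]
  have h2 : ∑ i ∈ Finset.range (p ^ N), x ^ i * y ^ (p ^ N - 1 - i) = 0 := by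
    rcases mul_eq_zero.1 h1 with h | h
    · exact h
    · exact absurd (sub_eq_zero.1 h) hne
  have hxyq : Ideal.Quotient.mk W x = Ideal.Quotient.mk W y := Ideal.Quotient.eq.2 hxy
  have h3 := congrArg (Ideal.Quotient.mk W) h2
  rw [map_sum, map_zero] at h3
  have h4 : ∀ i ∈ Finset.range (p ^ N), Ideal.Quotient.mk W (x ^ i * y ^ (p ^ N - 1 - i)) =
      Ideal.Quotient.mk W (y ^ (p ^ N - 1)) := by
    intro i hi
    rw [map_mul, map_pow, hxyq, ← map_pow, ← map_mul, ← pow_add]
    congr 2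
    have := Finset.mem_range.1 hi
    omega
  rw [Finset.sum_congr rfl h4, Finset.sum_const, Finset.card_range, nsmul_eq_mul] at h3
  have h5 : ((p ^ N : ℕ) : A) * y ^ (p ^ N - 1) ∈ W := by
    rw [← Ideal.Quotient.eq_zero_iff_mem, map_mul, map_natCast]
    exact h3
  have hy : y ∉ W := fun h => hW.ne_top (W.eq_top_iff_one.2 (by
    rw [← hyz]; exact W.mul_mem_right _ h))
  rcases hW.mem_or_mem h5 with h | h
  · rw [Nat.cast_pow] at h
    exact hp (hW.mem_of_pow_mem _ h)
  · exact hy (hW.mem_of_pow_mem _ h)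

variable {K : Type} [Field K]

/-- the field of the fixed elements of an automorphism -/
def fixS (g : AlgebraicClosure K ≃ₐ[K] AlgebraicClosure K) :
    IntermediateField K (AlgebraicClosure K) where
  carrier := {x | g x = x}
  mul_mem' := fun {a b} ha hb => by
    change g (a * b) = a * b
    rw [map_mul, show g a = a from ha, show g b = b from hb]
  add_mem' := fun {a b} ha hb => by
    change g (a + b) = a + b
    rw [map_add, show g a = a from ha, show g b = b from hb]
  algebraMap_mem' := fun c => g.commutes c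
  inv_mem' := fun x hx => by
    change g x⁻¹ = x⁻¹
    rw [map_inv₀, show g x = x from hx]

theorem mem_fixS (g : AlgebraicClosure K ≃ₐ[K] AlgebraicClosure K) (x : AlgebraicClosure K) :
    x ∈ fixS g ↔ g x = x := Iff.rfl

/-- an element of the inertia group fixes integral units with a fixed `p ^ N`-th power -/
theorem fix_of (R : IntermediateField K (AlgebraicClosure K)) [NumberField R]
    (W : HeightOneSpectrum (𝓞 R)) (p N : ℕ) (hp : ((p : ℕ) : 𝓞 R) ∉ W.asIdeal)
    (g : R ≃ₐ[K] R) (hg : ∀ y : 𝓞 R, g • y - y ∈ W.asIdeal)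
    (G : AlgebraicClosure K ≃ₐ[K] AlgebraicClosure K)
    (hG : ∀ y : R, G (y : AlgebraicClosure K) = ((g y : R) : AlgebraicClosure K))
    (a b : AlgebraicClosure K) (haR : a ∈ R) (hab : a * b = 1) (ha : IsIntegral ℤ a)
    (hb : IsIntegral ℤ b) (hpow : G (a ^ p ^ N) = a ^ p ^ N) : G a = a := by
  have ha0 : a ≠ 0 := left_ne_zero_of_mul_eq_one hab
  have hbR : b ∈ R := by
    have : b = a⁻¹ := eq_inv_of_mul_eq_one_right hab
    rw [this]; exact R.inv_mem haR
  have h1 : IsIntegral ℤ (⟨a, haR⟩ : R) :=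
    (isIntegral_algebraMap_iff (algebraMap R (AlgebraicClosure K)).injective).1 ha
  have h2 : IsIntegral ℤ (⟨b, hbR⟩ : R) :=
    (isIntegral_algebraMap_iff (algebraMap R (AlgebraicClosure K)).injective).1 hb
  let a' : 𝓞 R := ⟨⟨a, haR⟩, h1⟩
  let b' : 𝓞 R := ⟨⟨b, hbR⟩, h2⟩
  have hab' : a' * b' = 1 := RingOfIntegers.ext (Subtype.ext hab)
  have hpow' : (g • a') ^ p ^ N = a' ^ p ^ N := by
    apply RingOfIntegers.ext
    apply Subtype.ext
    have e1 : ((((g • a') ^ p ^ N : 𝓞 R) : R) : AlgebraicClosure K) =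
        ((g (⟨a, haR⟩ : R) : R) : AlgebraicClosure K) ^ p ^ N := rfl
    have e2 : (((a' ^ p ^ N : 𝓞 R) : R) : AlgebraicClosure K) = a ^ p ^ N := rfl
    rw [e1, e2, ← hG ⟨a, haR⟩, ← map_pow]
    exact hpow
  have := eq_of_cong W.asIdeal W.isPrime p N hp (g • a') a' b' hab' hpow' (hg a')
  have h3 := congrArg (fun y : 𝓞 R => ((y : R) : AlgebraicClosure K)) this
  rw [hG ⟨a, haR⟩]
  exact h3

/-- trivial inertia over `F`: a uniformizer in `F` -/
theorem uni_of_inertia [NumberField K] (F R : IntermediateField K (AlgebraicClosure K))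
    [NumberField F] [NumberField R] [IsGalois K R] (h0 : F ≤ R) (W : HeightOneSpectrum (𝓞 R))
    (H : ∀ g : R ≃ₐ[K] R, (∀ x : R, (x : AlgebraicClosure K) ∈ F → g x = x) →
      (∀ y : 𝓞 R, g • y - y ∈ W.asIdeal) → g = 1) : Uni F R W := by
  let _ := algF h0
  have hG : IsGalois F R := isGalois_algF h0
  have hram : (bel F W).asIdeal.ramificationIdx' W.asIdeal = 1 := by
    rw [← card_inertia, Nat.card_eq_one_iff_unique]
    refine ⟨⟨fun a b ↦ ?_⟩, ⟨1⟩⟩
    have key : ∀ g : W.asIdeal.inertia (R ≃ₐ[F] R), g = 1 := by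
      rintro ⟨g, hgW⟩
      obtain ⟨g₁, hg₁, hg₁'⟩ := restr_algF h0 g
      have h1 : g₁ = 1 := by
        refine H g₁ hg₁' fun y => ?_
        have h3 := hgW y
        have h4 : g • y = g₁ • y := RingOfIntegers.ext (hg₁ (y : R)).symm
        rw [h4] at h3
        exact h3
      apply Subtype.ext
      apply AlgEquiv.ext
      intro x
      change g x = x
      rw [← hg₁, h1]
      rfl
    rw [key a, key b]
  obtain ⟨π, hπ⟩ := exists_unif' (K := F) W hram
  exact uni_of h0 W π hπ

/-- the Kummer symbol vanishes at an automorphism which fixes all the roots -/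
theorem kum_eq_zero (p k : ℕ) (ζ x : AlgebraicClosure K) (hp : 0 < p ^ k)
    (hζ : IsPrimitiveRoot ζ (p ^ k)) (hx : x ≠ 0)
    (h : AlgebraicClosure K ≃ₐ[K] AlgebraicClosure K)
    (hr : ∀ r : AlgebraicClosure K, r ^ p ^ k = x → h r = r) : kum p k ζ x h = 0 := by
  classical
  unfold kum
  split_ifs with hex
  · obtain ⟨r, hrx, hrt⟩ := hex.choose_spec
    have hr0 : r ≠ 0 := by
      rintro rfl
      rw [zero_pow hp.ne'] at hrx
      exact hx hrx.symm
    rw [hr r hrx] at hrt
    have h1 : ζ ^ hex.choose.val = 1 := by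
      have : ζ ^ hex.choose.val * r = 1 * r := by rw [← hrt, one_mul]
      exact mul_right_cancel₀ hr0 this
    have : NeZero (p ^ k) := ⟨hp.ne'⟩
    have h2 := hζ.dvd_of_pow_eq_one _ h1
    have h3 := Nat.eq_zero_of_dvd_of_lt h2 (ZMod.val_lt _)
    exact (ZMod.val_eq_zero _).1 h3
  · rfl

theorem t : Pool.Agent.Helper16.SD.D_RAM := by
  intro p _ K _ _ F E M _ _ _ _ _ _ hFM hEM n hμ hgen k ζ hζ hζM ι _ e
  classical
  have := Fintype.ofFinite ι
  have hpp : p.Prime := Fact.out
  have hpk : 0 < p ^ k := pow_pos hpp.pos k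
  let x : ι → AlgebraicClosure K := fun i => (((e i : (𝓞 E)ˣ) : E) : AlgebraicClosure K)
  let y : ι → AlgebraicClosure K := fun i => ((((e i)⁻¹ : (𝓞 E)ˣ) : E) : AlgebraicClosure K)
  have hxy : ∀ i, x i * y i = 1 := fun i => by
    have h1 : ((e i : (𝓞 E)ˣ) : 𝓞 E) * (((e i)⁻¹ : (𝓞 E)ˣ) : 𝓞 E) = 1 := Units.mul_inv _
    have h2 := congrArg (fun z : 𝓞 E => ((z : E) : AlgebraicClosure K)) h1
    exact h2
  have hint : ∀ z : 𝓞 E, IsIntegral ℤ ((z : E) : AlgebraicClosure K) := fun z =>
    (isIntegral_algebraMap_iff (algebraMap E (AlgebraicClosure K)).injective).2 z.2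
  have hxE : ∀ i, x i ∈ E := fun i => ((e i : (𝓞 E)ˣ) : E).2
  let f : K[X] := ∏ i, minpoly K (x i)
  have hf0 : f ≠ 0 := Finset.prod_ne_zero_iff.2 fun i _ =>
    minpoly.ne_zero (Algebra.IsIntegral.isIntegral (x i))
  let q : K[X] := expand K (p ^ k) f
  have hq0 : q ≠ 0 := (expand_ne_zero hpk).2 hf0
  let N : IntermediateField K (AlgebraicClosure K) :=
    IntermediateField.adjoin K (q.rootSet (AlgebraicClosure K))
  have hsplit : q.IsSplittingField K N :=
    IntermediateField.adjoin_rootSet_isSplittingField (IsAlgClosed.splits _)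
  have hNn : Normal K N := Normal.of_isSplittingField q
  have hNf : FiniteDimensional K N := Polynomial.IsSplittingField.finiteDimensional N q
  let R : IntermediateField K (AlgebraicClosure K) := M ⊔ N
  have hRn : Normal K R := IntermediateField.normal_sup K (AlgebraicClosure K) M N
  have hRf : FiniteDimensional K R := IntermediateField.finiteDimensional_sup M N
  have hRG : IsGalois K R := IsGalois.mk
  have hRN : NumberField R := NumberField.of_module_finite K R
  have hMR : M ≤ R := le_sup_left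
  have hNR : N ≤ R := le_sup_right
  -- roots
  have hroot : ∀ r : AlgebraicClosure K, r ∈ q.rootSet (AlgebraicClosure K) ↔
      ∃ i, ∃ σ : AlgebraicClosure K ≃ₐ[K] AlgebraicClosure K, r ^ p ^ k = σ (x i) := by
    intro r
    rw [mem_rootSet]
    constructor
    · rintro ⟨-, h⟩
      rw [expand_aeval, map_prod, Finset.prod_eq_zero_iff] at h
      obtain ⟨i, -, hi⟩ := h
      have hc : IsConjRoot K (x i) (r ^ p ^ k) :=
        (isConjRoot_iff_aeval_eq_zero (Algebra.IsIntegral.isIntegral (x i))).2 hi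
      obtain ⟨σ, hσ⟩ := isConjRoot_iff_exists_algEquiv.1 hc.symm
      exact ⟨i, σ, hσ.symm⟩
    · rintro ⟨i, σ, h⟩
      refine ⟨hq0, ?_⟩
      rw [expand_aeval, map_prod, Finset.prod_eq_zero_iff]
      refine ⟨i, Finset.mem_univ _, ?_⟩
      rw [h, ← AlgEquiv.coe_toAlgHom, aeval_algHom_apply, minpoly.aeval, map_zero]
  refine ⟨R, hRN, hRG, hMR, ?_, ?_⟩
  · intro h hh i
    refine kum_eq_zero p k ζ _ hpk hζ ?_ h fun r hr => hh r (hNR ?_)
    · exact left_ne_zero_of_mul_eq_one (hxy i)
    · exact IntermediateField.subset_adjoin _ _ ((hroot r).2 ⟨i, AlgEquiv.refl, hr⟩)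
  · intro W hW
    have hpW : ((p : ℕ) : 𝓞 R) ∉ W.asIdeal := by
      intro hmem
      have := (W.valuation_lt_one_iff_mem (K := R) (((p : ℕ) : 𝓞 R))).2 hmem
      have e1 : algebraMap (𝓞 R) R ((p : ℕ) : 𝓞 R) = ((p : ℕ) : R) := map_natCast _ p
      have e2 := lt_of_eq_of_lt (congrArg (W.valuation R) e1).symm this
      exact absurd hW e2.ne
    refine uni_of_inertia F R (hFM.trans hMR) W fun g hgF hgW => ?_
    have hG : ∀ z : R, (g.liftNormal (AlgebraicClosure K)) (z : AlgebraicClosure K) =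
        ((g z : R) : AlgebraicClosure K) := fun z =>
      AlgEquiv.liftNormal_commutes g (AlgebraicClosure K) z
    set G := g.liftNormal (AlgebraicClosure K) with hGdef
    have hMfix : M ≤ fixS G := by
      intro z hz
      refine hgen z hz (fixS G) ?_ ?_
      · intro w hw
        rw [mem_fixS]
        have := hG ⟨w, hMR (hFM hw)⟩
        rw [hgF ⟨w, hMR (hFM hw)⟩ hw] at this
        exact this
      · intro ξ hξ
        rw [mem_fixS]
        have hpn : 0 < p ^ n := pow_pos hpp.pos n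
        have hξξ : ξ * ξ ^ (p ^ n - 1) = 1 := by
          rw [← pow_succ', Nat.sub_add_cancel hpn, hξ]
        have hi : IsIntegral ℤ ξ := IsIntegral.of_pow hpn (by rw [hξ]; exact isIntegral_one)
        exact fix_of R W p n hpW g hgW G hG ξ _ (hMR (hμ ξ hξ)) hξξ hi (hi.pow _)
          (by rw [hξ, map_one])
    have hNfix : N ≤ fixS G := by
      rw [IntermediateField.adjoin_le_iff]
      intro r hr
      obtain ⟨i, σ, hσ⟩ := (hroot r).1 hr
      change G r = r
      have hσE : σ (x i) ∈ E := by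
        have := AlgEquiv.restrictNormal_commutes σ E ⟨x i, hxE i⟩
        have h2 : σ (x i) = ((σ.restrictNormal E ⟨x i, hxE i⟩ : E) : AlgebraicClosure K) :=
          this.symm
        rw [h2]
        exact (σ.restrictNormal E ⟨x i, hxE i⟩ : E).2
      have hrr : r * (r ^ (p ^ k - 1) * σ (y i)) = 1 := by
        rw [← mul_assoc, ← pow_succ', Nat.sub_add_cancel hpk, hσ, ← map_mul, hxy, map_one]
      have hiσ : ∀ z : 𝓞 E, IsIntegral ℤ (σ ((z : E) : AlgebraicClosure K)) := fun z =>
        (hint z).map ((σ : AlgebraicClosure K →+* AlgebraicClosure K).toIntAlgHom)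
      have hir : IsIntegral ℤ r := IsIntegral.of_pow hpk (by rw [hσ]; exact hiσ _)
      refine fix_of R W p k hpW g hgW G hG r _ (hNR (IntermediateField.subset_adjoin _ _ hr)) hrr
        hir ((hir.pow _).mul (hiσ _)) ?_
      rw [hσ]
      exact hMfix (hEM hσE)
    have hRfix : R ≤ fixS G := sup_le hMfix hNfix
    apply AlgEquiv.ext
    intro z
    apply Subtype.ext
    rw [← hG]
    exact hRfix z.2

end Pool.Agent.Helper39.SD.D_RAM
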